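import Mathlib.GroupTheory.Index
import Mathlib.GroupTheory.GroupAction.Basic
import Mathlib.GroupTheory.QuotientGroup.Basic
import Mathlib.Algebra.BigOperators.Group.Finset.Basic
import Mathlib.Data.Int.GCD
import Mathlib.Tactic

/-!
# Project PL: the affine average

A group `G` acts on a torsor `Ω` of an abelian group `Z` of exponent `ℓ` by affine maps; if a
subgroup of index prime to `ℓ` has a fixed point, then `G` has a fixed point.
-/

set_option autoImplicit false

namespace Pool.Agent.Helper29.PL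

open scoped Classical in
/-- the affine average -/
theorem avg {G Z Ω : Type*} [Group G] [CommGroup Z] [MulAction Z Ω] (φ : G →* Equiv.Perm Ω)
    (ψ : G →* MulAut Z) (hc : ∀ g z ω, φ g (z • ω) = ψ g z • φ g ω)
    (hreg : ∀ ω ω' : Ω, ∃ z : Z, z • ω = ω') (hfree : ∀ (z : Z) (ω : Ω), z • ω = ω → z = 1)
    (ℓ : ℕ) (hl : ∀ z : Z, z ^ ℓ = 1) (H : Subgroup G) (h0 : H.index ≠ 0)
    (hH : Nat.Coprime H.index ℓ) (ω₀ : Ω) (hf : ∀ h ∈ H, φ h ω₀ = ω₀) :
    ∃ ω : Ω, ∀ g : G, φ g ω = ω := by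
  classical
  have hfin : Finite (G ⧸ H) := by
    have : H.FiniteIndex := ⟨h0⟩
    infer_instance
  have := Fintype.ofFinite (G ⧸ H)
  choose z hz using fun g : G => hreg ω₀ (φ g ω₀)
  have huniq : ∀ (a b : Z) (ω : Ω), a • ω = b • ω → a = b := by
    intro a b ω h
    have h1 : (b⁻¹ * a) • ω = ω := by rw [mul_smul, h, inv_smul_smul]
    have h2 := hfree _ _ h1
    rw [inv_mul_eq_one] at h2
    exact h2.symm
  have hzm : ∀ g q : G, z (g * q) = ψ g (z q) * z g := by
    intro g q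
    apply huniq _ _ ω₀
    rw [hz, map_mul, Equiv.Perm.mul_apply, ← hz q, hc, mul_smul, hz g]
  have hzh : ∀ h ∈ H, z h = 1 := by
    intro h hh
    apply huniq _ _ ω₀
    rw [hz, hf h hh, one_smul]
  have hzq : ∀ g : G, ∀ h ∈ H, z (g * h) = z g := by
    intro g h hh
    rw [hzm, hzh h hh, map_one, one_mul]
  let Zq : G ⧸ H → Z := fun q => Quotient.liftOn' q z (by
    intro a b hab
    rw [QuotientGroup.leftRel_apply] at hab
    have := hzq a _ hab
    rw [mul_inv_cancel_left] at this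
    exact this.symm)
  have hZq : ∀ g : G, Zq (g : G ⧸ H) = z g := fun g => rfl
  have hZm : ∀ (g : G) (q : G ⧸ H), Zq (g • q) = ψ g (Zq q) * z g := by
    intro g q
    induction q using QuotientGroup.induction_on with
    | H q =>
      change Zq ((g * q : G) : G ⧸ H) = _
      rw [hZq, hZq, hzm]
  set t : Z := ∏ q : G ⧸ H, Zq q with ht
  have hcard : Fintype.card (G ⧸ H) = H.index := by
    rw [← Nat.card_eq_fintype_card]
    rfl
  have hψt : ∀ g : G, ψ g t * z g ^ H.index = t := by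
    intro g
    rw [ht, map_prod, ← hcard, ← Finset.card_univ, ← Finset.prod_const, ← Finset.prod_mul_distrib]
    rw [← Equiv.prod_comp (MulAction.toPerm g : Equiv.Perm (G ⧸ H)) Zq]
    refine Finset.prod_congr rfl fun q _ => ?_
    rw [MulAction.toPerm_apply, hZm]
  obtain ⟨n, hn⟩ : ∃ n : ℤ, ∃ m : ℤ, (H.index : ℤ) * n + (ℓ : ℤ) * m = 1 := by
    refine ⟨Nat.gcdA H.index ℓ, Nat.gcdB H.index ℓ, ?_⟩
    rw [← Nat.gcd_eq_gcd_ab, hH.gcd_eq_one]
    rfl
  obtain ⟨m, hm⟩ := hn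
  refine ⟨t ^ n • ω₀, fun g => ?_⟩
  rw [hc, ← hz g, ← mul_smul]
  congr 1
  have h1 : ψ g t = t * (z g ^ H.index)⁻¹ := by
    rw [eq_mul_inv_iff_mul_eq]
    exact hψt g
  rw [map_zpow, h1, mul_zpow, inv_zpow, ← zpow_natCast, ← zpow_mul]
  have h2 : (z g) ^ ((H.index : ℤ) * n) = z g := by
    have h3 : (H.index : ℤ) * n = 1 - ℓ * m := by linarith
    rw [h3, zpow_sub, zpow_one, zpow_mul, zpow_natCast, hl, one_zpow, inv_one, mul_one]
  rw [h2]
  group

end Pool.Agent.Helper29.PL
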