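import Pool.Agent.Helper45.PL.Defs
import Pool.Agent.Helper45.TW.SAa
import Pool.Agent.Helper45.PD.YLa
import Pool.Agent.Helper13.PL.Grp

/-!
# Project PL, block B5 (COMS): a common fixed place
-/

set_option autoImplicit false
set_option linter.unusedSectionVars false

namespace Pool.Agent.PRL

open VC IntermediateField NumberField IsDedekindDomain Pool.Agent.SC
open Pool.Agent.L (L0 MM)
open Pool.Agent.LN (Geo Act)
open Pool.Agent.M (Moves OverPl inL0 moves_comp moves_unique moves_one moves_congr)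
open Pool.Agent.ML (HasMu BPl)
open Pool.Agent.TOW (Au AuE exists_im moves_inv)
open Pool.Agent.PDL (au_L0)

section im

variable {K0 E U : Type} [Field K0] [Field E] [Field U] [Algebra E U] [Algebra K0 U]

/-- the image of a place of a level above a place of `L0` -/
theorem exists_im_over {N : IntermediateField E U} {T : U ≃+* U} (h1 : ∀ x ∈ N, T x ∈ N)
    (h2 : ∀ x ∈ N, T⁻¹ x ∈ N) (hE : ∀ e : E, ∃ e' : E, T⁻¹ (algebraMap E U e) = algebraMap E U e')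
    (hL : ∀ x ∈ L0 E K0 (U := U), T⁻¹ x ∈ L0 E K0 (U := U))
    {b b' : Place E (L0 E K0 (U := U))} (hb : Moves T _ b b')
    {Q : Place E N} (hQ : OverPl b Q) : ∃ Q' : Place E N, OverPl b' Q' ∧ Moves T N Q Q' := by
  obtain ⟨Q', hQ'⟩ := exists_im h1 h2 hE Q
  refine ⟨Q', ?_, hQ'⟩
  intro x hx hx'
  have h3 : T (T⁻¹ x) = x := T.apply_symm_apply x
  have h4 := hb (T⁻¹ x) (hL x hx) (by rw [h3]; exact hx)
  have h5 := hQ (T⁻¹ x) (hL x hx) (h2 x hx')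
  have h6 := hQ' (T⁻¹ x) (h2 x hx') (by rw [h3]; exact hx')
  have h7 : (⟨T (T⁻¹ x), by rw [h3]; exact hx⟩ : L0 E K0 (U := U)) = ⟨x, hx⟩ := Subtype.ext h3
  have h8 : (⟨T (T⁻¹ x), by rw [h3]; exact hx'⟩ : N) = ⟨x, hx'⟩ := Subtype.ext h3
  rw [h7] at h4
  rw [h8] at h6
  rw [← h4, h5, h6]

end im

theorem coms (hPX : StmtPXL) : StmtCOMS := by
  intro k K0 E U _ _ _ _ _ _ _ _ _ _ _ _ ℓ h r hℓ hμ hG S hS N hN hMN hab hexp hcomm b hb c Φ hc A
    hσ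
  classical
  obtain ⟨hfree, hpl⟩ := hPX k K0 E U ℓ h r hℓ hG N hN hMN
  obtain ⟨hne, hfin, htr, -⟩ := hpl b hb
  -- automorphisms
  have hAuΦ : ∀ g : E ≃ₐ[k] E, Au E K0 (Φ g) := fun g => ⟨A.fixK g, fun e => ⟨g e, A.const g e⟩⟩
  have hAuE : ∀ {a : U ≃+* U}, AuE E K0 a → Au E K0 a := fun ha =>
    ⟨ha.fixK, fun e => ⟨e, ha.fixE e⟩⟩
  have hst : ∀ {T : U ≃+* U}, Au E K0 T → ∀ x ∈ N, T x ∈ N := fun hT x hx =>
    hN.stab _ hT.fixK hT.presE x hx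
  have hinv : ∀ g : E ≃ₐ[k] E, (Φ g)⁻¹ = Φ g⁻¹ := fun g => (map_inv Φ g).symm
  have hΦst : ∀ (g : E ≃ₐ[k] E), ∀ x ∈ N, (Φ g).symm x ∈ N := by
    intro g x hx
    have h1 := hst (hAuΦ g⁻¹) x hx
    rw [← hinv] at h1
    exact h1
  have hast : ∀ {a : U ≃+* U}, AuE E K0 a → ∀ x ∈ N, a.symm x ∈ N := fun ha x hx =>
    hst (hAuE ha.inv) x hx
  -- `b` is fixed
  have hLE : ∀ {T : U ≃+* U}, Au E K0 T → ∀ x ∈ L0 E K0 (U := U), T x ∈ L0 E K0 (U := U) :=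
    fun hT x hx => au_L0 hT x hx
  have hLN : L0 E K0 (U := U) ≤ N := (Pool.Agent.TOW.L0_le_MM).trans hMN
  have hbm : ∀ g : E ≃ₐ[k] E, Moves (Φ g) _ b b := by
    intro g x hx hx'
    obtain ⟨Q, hQ, hm⟩ := hσ g
    rw [hQ x hx (hLN hx), hm x (hLN hx) (hLN hx'), ← hQ (Φ g x) hx' (hLN hx')]
  have hbE : ∀ {a : U ≃+* U}, AuE E K0 a → Moves a (L0 E K0 (U := U)) b b := by
    intro a ha x hx hx'
    have h1 : (⟨a x, hx'⟩ : L0 E K0 (U := U)) = ⟨x, hx⟩ := Subtype.ext (ha.onL0 x hx)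
    rw [h1]
  -- constants
  have hA1 : ∀ g : E ≃ₐ[k] E, ∃ e : E, Φ g r = algebraMap E U e * r := by
    intro g
    obtain ⟨d, hd, hd'⟩ := A.tw
    have hd0 : d ≠ 0 := by
      rintro rfl
      rw [zero_pow hℓ.ne_zero] at hd
      exact hc ((map_eq_zero _).1 hd.symm)
    have hgd : algebraMap E U (g d) ≠ 0 := by
      rw [Ne, map_eq_zero, map_eq_zero]
      exact hd0
    refine ⟨d / g d, ?_⟩
    rw [map_div₀, div_mul_eq_mul_div, eq_div_iff hgd]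
    exact hd' g
  -- the set of places above `b`
  obtain ⟨Ω, hΩ⟩ : ∃ Ω : Type, Ω = {Q : Place E N // OverPl b Q} := ⟨_, rfl⟩
  subst hΩ
  have hAE : ∀ a : U ≃+* U, AuE E K0 a → ∀ Q : {Q : Place E N // OverPl b Q},
      ∃ Q' : {Q : Place E N // OverPl b Q}, Moves a N Q.1 Q'.1 := by
    rintro a ha ⟨Q, hQ⟩
    obtain ⟨Q', h1, h2⟩ := exists_im_over (hst (hAuE ha)) (hst (hAuE ha.inv))
      (hAuE ha.inv).presE (hLE (hAuE ha.inv)) (hbE ha) hQ
    exact ⟨⟨Q', h1⟩, h2⟩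
  have hAΦ : ∀ g : E ≃ₐ[k] E, ∀ Q : {Q : Place E N // OverPl b Q},
      ∃ Q' : {Q : Place E N // OverPl b Q}, Moves (Φ g) N Q.1 Q'.1 := by
    rintro g ⟨Q, hQ⟩
    have h3 : Au E K0 (Φ g)⁻¹ := by rw [hinv]; exact hAuΦ g⁻¹
    obtain ⟨Q', h1, h2⟩ := exists_im_over (hst (hAuΦ g)) (hst h3) h3.presE (hLE h3) (hbm g) hQ
    exact ⟨⟨Q', h1⟩, h2⟩
  have huΦ : ∀ (g : E ≃ₐ[k] E) {Q Q' Q'' : Place E N}, Moves (Φ g) N Q Q' →
      Moves (Φ g) N Q Q'' → Q' = Q'' := fun g _ _ _ h1 h2 => moves_unique (hΦst g) h1 h2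
  have huE : ∀ {a : U ≃+* U}, AuE E K0 a → ∀ {Q Q' Q'' : Place E N}, Moves a N Q Q' →
      Moves a N Q Q'' → Q' = Q'' := fun ha _ _ _ h1 h2 => moves_unique (hast ha) h1 h2
  -- the action of the Galois group
  choose im him using hAΦ
  letI instG : MulAction (E ≃ₐ[k] E) {Q : Place E N // OverPl b Q} :=
    { smul := im
      one_smul := fun Q => Subtype.ext (huΦ 1 (him 1 Q) (by rw [map_one]; exact moves_one _))
      mul_smul := fun g g' Q => Subtype.ext (huΦ (g * g') (him (g * g') Q) (by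
        rw [map_mul]
        exact moves_comp (hst (hAuΦ g')) (him g' Q) (him g (im g' Q)))) }
  have hsm : ∀ (g : E ≃ₐ[k] E) (Q : {Q : Place E N // OverPl b Q}),
      Moves (Φ g) N Q.1 (g • Q).1 := fun g Q => him g Q
  -- permutations
  have hperm : ∀ a : U ≃+* U, AuE E K0 a → ∃ π : Equiv.Perm {Q : Place E N // OverPl b Q},
      ∀ Q, Moves a N Q.1 (π Q).1 := by
    intro a ha
    choose f hf using hAE a ha
    choose g hg using hAE a⁻¹ ha.inv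
    refine ⟨⟨f, g, fun Q => Subtype.ext ?_, fun Q => Subtype.ext ?_⟩, hf⟩
    · exact huE ha.inv (hg (f Q)) (moves_inv (hst (hAuE ha.inv)) (hf Q))
    · have h1 := moves_inv (T := a⁻¹) (by rw [inv_inv]; exact hst (hAuE ha)) (hg Q)
      rw [inv_inv] at h1
      exact huE ha (hf (g Q)) h1
  -- the group of translations
  let Zs : Subgroup (Equiv.Perm {Q : Place E N // OverPl b Q}) :=
    { carrier := {π | ∃ a : U ≃+* U, AuE E K0 a ∧ a r = r ∧ ∀ Q, Moves a N Q.1 (π Q).1}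
      mul_mem' := by
        rintro π π' ⟨a, ha, hr, hm⟩ ⟨a', ha', hr', hm'⟩
        refine ⟨a * a', ha.mul ha', ?_, fun Q => ?_⟩
        · show a (a' r) = r
          rw [hr', hr]
        · exact moves_comp (hst (hAuE ha')) (hm' Q) (hm (π' Q))
      one_mem' := ⟨1, AuE.one, rfl, fun Q => moves_one _⟩
      inv_mem' := by
        rintro π ⟨a, ha, hr, hm⟩
        refine ⟨a⁻¹, ha.inv, Pool.Agent.TOW.inv_fix hr, fun Q => ?_⟩
        have h1 := hm (π⁻¹ Q)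
        have h2 : π (π⁻¹ Q) = Q := π.apply_symm_apply Q
        rw [h2] at h1
        exact moves_inv (hst (hAuE ha.inv)) h1 }
  have hZc : ∀ π π' : Zs, π * π' = π' * π := by
    rintro ⟨π, a, ha, hr, hm⟩ ⟨π', a', ha', hr', hm'⟩
    refine Subtype.ext (Equiv.ext fun Q => Subtype.ext ?_)
    show (π (π' Q)).1 = (π' (π Q)).1
    have h1 := moves_comp (hst (hAuE ha')) (hm' Q) (hm (π' Q))
    have h2 := moves_comp (hst (hAuE ha)) (hm Q) (hm' (π Q))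
    have h3 : Moves (a' * a) N Q.1 (π (π' Q)).1 :=
      moves_congr (fun x hx => hab a a' ha ha' x hx) h1
    exact huE (ha'.mul ha) h3 h2
  letI : CommGroup Zs := { (inferInstance : Group Zs) with mul_comm := hZc }
  have hZe : ∀ z : Zs, z ^ ℓ = 1 := by
    rintro ⟨π, a, ha, hr, hm⟩
    have h1 : ∀ n : ℕ, AuE E K0 (a ^ n) ∧ ∀ Q, Moves (a ^ n) N Q.1 ((π ^ n) Q).1 := by
      intro n
      induction n with
      | zero => exact ⟨by rw [pow_zero]; exact AuE.one, fun Q => by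
          rw [pow_zero, pow_zero]; exact moves_one _⟩
      | succ n ih =>
        refine ⟨by rw [pow_succ]; exact ih.1.mul ha, fun Q => ?_⟩
        rw [pow_succ, pow_succ]
        exact moves_comp (hst (hAuE ha)) (hm Q) (ih.2 (π Q))
    refine Subtype.ext (Equiv.ext fun Q => Subtype.ext ?_)
    show ((π ^ ℓ) Q).1 = Q.1
    refine huE (h1 ℓ).1 ((h1 ℓ).2 Q) ?_
    exact moves_congr (fun x hx => (hexp a ha x hx).symm) (moves_one Q.1)
  have hZt : ∀ Q Q' : {Q : Place E N // OverPl b Q}, ∃ z : Zs, z • Q = Q' := by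
    intro Q Q'
    obtain ⟨a, ha, hr, hm⟩ := htr Q.1 Q'.1 Q.2 Q'.2
    obtain ⟨π, hπ⟩ := hperm a ha
    exact ⟨⟨π, a, ha, hr, hπ⟩, Subtype.ext (huE ha (hπ Q) hm)⟩
  have hZf : ∀ (z : Zs) (Q : {Q : Place E N // OverPl b Q}), z • Q = Q → z = 1 := by
    rintro ⟨π, a, ha, hr, hm⟩ Q hQ
    have h0 : π Q = Q := hQ
    have h1 := hm Q
    rw [h0] at h1
    have h2 := hfree a Q.1 ha hr h1
    refine Subtype.ext (Equiv.ext fun Q' => Subtype.ext ?_)
    exact huE ha (hm Q') (moves_congr (fun x hx => (h2 x hx).symm) (moves_one Q'.1))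
  have hno : ∀ (g : E ≃ₐ[k] E) (z : Zs), ∃ z' : Zs, ∀ Q : {Q : Place E N // OverPl b Q},
      g • (z • Q) = z' • (g • Q) := by
    rintro g ⟨π, a, ha, hr, hm⟩
    have hcE : AuE E K0 (Φ g * a * (Φ g)⁻¹) := by
      refine ⟨fun x => ?_, fun e => ?_⟩
      · rw [hinv]
        show Φ g (a (Φ g⁻¹ _)) = _
        rw [A.fixK, ha.fixK, A.fixK]
      · rw [hinv]
        show Φ g (a (Φ g⁻¹ _)) = _
        rw [A.const, ha.fixE, A.const]
        congr 1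
        exact g.apply_symm_apply e
    have hcr : (Φ g * a * (Φ g)⁻¹) r = r := by
      obtain ⟨e, he⟩ := hA1 g⁻¹
      have h1 : (Φ g)⁻¹ r = algebraMap E U e * r := by rw [hinv]; exact he
      show Φ g (a ((Φ g)⁻¹ r)) = r
      rw [h1, map_mul, ha.fixE, hr, ← h1]
      exact (Φ g).apply_symm_apply r
    obtain ⟨π', hπ'⟩ := hperm _ hcE
    refine ⟨⟨π', _, hcE, hcr, hπ'⟩, fun Q => Subtype.ext ?_⟩
    have h1 : Moves (Φ g * a) N Q.1 (g • (π Q)).1 :=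
      moves_comp (hst (hAuE ha)) (hm Q) (hsm g (π Q))
    have h2 : Moves (Φ g * a * (Φ g)⁻¹ * Φ g) N Q.1 (π' (g • Q)).1 :=
      moves_comp (hst (hAuΦ g)) (hsm g Q) (hπ' (g • Q))
    rw [inv_mul_cancel_right] at h2
    refine moves_unique (T := Φ g * a) (fun x hx => ?_) h1 h2
    show a.symm ((Φ g).symm x) ∈ N
    exact hast ha _ (hΦst g x hx)
  obtain ⟨σ₀, hσ₀⟩ := hS.syl
  obtain ⟨Q₀, hQ₀, hm₀⟩ := hσ σ₀
  have hfix : ∀ g ∈ S ⊔ Subgroup.zpowers σ₀,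
      g • (⟨Q₀, hQ₀⟩ : {Q : Place E N // OverPl b Q}) = ⟨Q₀, hQ₀⟩ := by
    have h1 : S ⊔ Subgroup.zpowers σ₀ ≤
        MulAction.stabilizer (E ≃ₐ[k] E) (⟨Q₀, hQ₀⟩ : {Q : Place E N // OverPl b Q}) := by
      refine sup_le (fun s hs => ?_) ?_
      · rw [MulAction.mem_stabilizer_iff]
        obtain ⟨Qs, hQs, hms⟩ := hσ s
        obtain ⟨a, ha, hr, hma⟩ := htr Qs Q₀ hQs hQ₀
        have h2 : Moves (Φ s * a) N Qs (s • (⟨Q₀, hQ₀⟩ : {Q : Place E N // OverPl b Q})).1 :=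
          moves_comp (hst (hAuE ha)) hma (hsm s ⟨Q₀, hQ₀⟩)
        have h3 : Moves (a * Φ s) N Qs Q₀ := moves_comp (hst (hAuΦ s)) hms hma
        have h4 : Moves (Φ s * a) N Qs Q₀ := moves_congr
          (fun x hx => (hcomm (Φ s) a (hAuΦ s) ⟨s, hs, A.const s⟩ ha hr x hx).symm) h3
        refine Subtype.ext (moves_unique (T := Φ s * a) (fun x hx => ?_) h2 h4)
        show a.symm ((Φ s).symm x) ∈ N
        exact hast ha _ (hΦst s x hx)
      · rw [Subgroup.zpowers_le, MulAction.mem_stabilizer_iff]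
        exact Subtype.ext (huΦ σ₀ (hsm σ₀ _) hm₀)
    exact fun g hg => MulAction.mem_stabilizer_iff.1 (h1 hg)
  obtain ⟨ω, hω⟩ := Pool.Agent.PL13.exists_fixed_of_index hℓ hZe hZt hZf hno _ hσ₀ ⟨Q₀, hQ₀⟩ hfix
  refine ⟨ω.1, ω.2, fun g => ?_⟩
  have h1 := hsm g ω
  rw [hω g] at h1
  exact h1

end Pool.Agent.PRL
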