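import Pool.Agent.Helper29.PL.Gam

/-!
# Project PL: the number of the places above `b` fixed by an inertia group
-/

set_option autoImplicit false
set_option linter.unusedSectionVars false

namespace Pool.Agent.PRL

open VC IntermediateField MulAction Pool.Agent.SC
open Pool.Agent.L (L0 MM)
open Pool.Agent.M (Moves OverPl restr moves_comp moves_unique moves_one moves_congr moves_pow)
open Pool.Agent.TOW (Au AuE exists_im moves_inv inv_fix)

section fix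

variable {K0 E U : Type} [Field K0] [Field E] [Field U] [Algebra E U] [Algebra K0 U]

/-- what we use about a level `N`, a branch place `b`, a place `Q` above `b` and its inertia element -/
structure InG (ℓ : ℕ) (r : U) (N : IntermediateField E U) (b : Place E (L0 E K0 (U := U)))
    (Q : Place E N) (ι : U ≃+* U) (ζ : E) : Prop where
  lvl : TW.Lvl E K0 N
  mm : MM E K0 r ≤ N
  r0 : r ≠ 0
  root : ∃ h : K0, r ^ ℓ = algebraMap K0 U h
  free : ∀ (T : U ≃+* U) (Q : Place E N), AuE E K0 T → T r = r → Moves T N Q Q → ∀ z ∈ N, T z = z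
  fin : {Q : Place E N | OverPl b Q}.Finite
  tr : ∀ Q Q' : Place E N, OverPl b Q → OverPl b Q' →
    ∃ a : U ≃+* U, AuE E K0 a ∧ a r = r ∧ Moves a N Q Q'
  ov : OverPl b Q
  iE : AuE E K0 ι
  prim : IsPrimitiveRoot ζ ℓ
  ir : ι r = algebraMap E U ζ * r
  iQ : Moves ι N Q Q

variable {ℓ : ℕ} {r : U} {N : IntermediateField E U} {b : Place E (L0 E K0 (U := U))}
  {Q : Place E N} {ι : U ≃+* U} {ζ : E}

theorem InG.r_mem (H : InG ℓ r N b Q ι ζ) : r ∈ N :=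
  H.mm (IntermediateField.subset_adjoin _ _ (Or.inr rfl))

/-- an automorphism over `L0` which fixes `Q` is a power of `ι` on `N` -/
theorem InG.eq_pow (H : InG ℓ r N b Q ι ζ) (hℓ : ℓ.Prime) {a : U ≃+* U} (ha : AuE E K0 a)
    (hm : Moves a N Q Q) : ∃ j : ℕ, ∀ z ∈ N, a z = (ι ^ j) z := by
  have : NeZero ℓ := ⟨hℓ.ne_zero⟩
  obtain ⟨h, hh⟩ := H.root
  have h1 : (a r / r) ^ ℓ = 1 := by
    rw [div_pow, ← map_pow, hh, ha.fixK, div_self]
    rw [← hh]
    exact pow_ne_zero _ H.r0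
  have h2 : IsPrimitiveRoot (algebraMap E U ζ) ℓ :=
    H.prim.map_of_injective (algebraMap E U).injective
  obtain ⟨j, -, hj⟩ := h2.eq_pow_of_pow_eq_one h1
  have h3 : ∀ n : ℕ, (ι ^ n) r = algebraMap E U (ζ ^ n) * r := by
    intro n
    induction n with
    | zero => rw [pow_zero, pow_zero, map_one, one_mul]; rfl
    | succ n ih =>
      rw [pow_succ]
      show (ι ^ n) (ι r) = _
      rw [H.ir, map_mul, ih, (AuE.pow29 H.iE n).fixE, pow_succ, map_mul]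
      ring
  refine ⟨j, ?_⟩
  have hst : ∀ {T : U ≃+* U}, AuE E K0 T → ∀ x ∈ N, T x ∈ N := fun hT x hx =>
    H.lvl.stab _ hT.fixK (AuE.au29 hT).presE x hx
  have h4 : AuE E K0 ((ι ^ j)⁻¹ * a) := (AuE.pow29 H.iE j).inv.mul ha
  have h5 : Moves (ι ^ j) N Q Q := moves_pow (hst H.iE) H.iQ j
  have h6 : Moves ((ι ^ j)⁻¹ * a) N Q Q :=
    moves_comp (hst ha) hm (moves_inv (hst (AuE.pow29 H.iE j).inv) h5)
  have h7 : a r = (ι ^ j) r := by
    rw [h3, map_pow, hj, div_mul_cancel₀ _ H.r0]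
  have h8 : ((ι ^ j)⁻¹ * a) r = r := by
    show (ι ^ j).symm (a r) = r
    rw [h7, RingEquiv.symm_apply_apply]
  intro z hz
  have h9 := H.free _ Q h4 h8 h6 z hz
  have h10 : (ι ^ j).symm (a z) = z := h9
  rw [RingEquiv.symm_apply_eq] at h10
  exact h10

/-- `ι ^ ℓ` is trivial on `N` -/
theorem InG.pow_l (H : InG ℓ r N b Q ι ζ) : ∀ z ∈ N, (ι ^ ℓ) z = z := by
  have h3 : ∀ n : ℕ, (ι ^ n) r = algebraMap E U (ζ ^ n) * r := by
    intro n
    induction n with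
    | zero => rw [pow_zero, pow_zero, map_one, one_mul]; rfl
    | succ n ih =>
      rw [pow_succ]
      show (ι ^ n) (ι r) = _
      rw [H.ir, map_mul, ih, (AuE.pow29 H.iE n).fixE, pow_succ, map_mul]
      ring
  have hst : ∀ {T : U ≃+* U}, AuE E K0 T → ∀ x ∈ N, T x ∈ N := fun hT x hx =>
    H.lvl.stab _ hT.fixK (AuE.au29 hT).presE x hx
  refine H.free _ Q (AuE.pow29 H.iE ℓ) ?_ (moves_pow (hst H.iE) H.iQ ℓ)
  rw [h3, H.prim.pow_eq_one, map_one, one_mul]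

/-- the stabiliser of `Q` is generated by `ι` and has order `ℓ` -/
theorem InG.stab (H : InG ℓ r N b Q ι ζ) (hℓ : ℓ.Prime) {s : Gam E K0 N}
    (hs : ∀ z : N, ((s.1 z : N) : U) = ι z) :
    letI := actG H.lvl b
    stabilizer (Gam E K0 N) (⟨Q, H.ov⟩ : {Q : Place E N // OverPl b Q}) =
      Subgroup.zpowers s ∧
    Nat.card (stabilizer (Gam E K0 N) (⟨Q, H.ov⟩ : {Q : Place E N // OverPl b Q})) = ℓ := by
  letI := actG H.lvl b
  have hst : ∀ {T : U ≃+* U}, AuE E K0 T → ∀ x ∈ N, T x ∈ N := fun hT x hx =>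
    H.lvl.stab _ hT.fixK (AuE.au29 hT).presE x hx
  have h1 : stabilizer (Gam E K0 N) (⟨Q, H.ov⟩ : {Q : Place E N // OverPl b Q}) =
      Subgroup.zpowers s := by
    apply le_antisymm
    · intro γ hγ
      rw [mem_stabilizer_iff] at hγ
      obtain ⟨a, ha, hγa⟩ := γ.2
      have h2 := (exists_imG H.lvl γ ⟨Q, H.ov⟩).choose_spec
      have h3 : (exists_imG H.lvl γ (⟨Q, H.ov⟩ : {Q : Place E N // OverPl b Q})).choose =
        ⟨Q, H.ov⟩ := hγ
      rw [h3] at h2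
      have h4 : Moves a N Q Q := by
        intro x hx hx'
        have h5 := h2 ⟨x, hx⟩
        have h6 : γ.1 ⟨x, hx⟩ = ⟨a x, hx'⟩ := Subtype.ext (hγa ⟨x, hx⟩)
        rw [h6] at h5
        exact h5
      obtain ⟨j, hj⟩ := H.eq_pow hℓ ha h4
      refine ⟨j, ?_⟩
      show s ^ (j : ℤ) = γ
      rw [zpow_natCast]
      refine gam_ext fun z => ?_
      rw [gam_pow hs, hγa, hj z z.2]
    · rw [Subgroup.zpowers_le, mem_stabilizer_iff]
      refine Subtype.ext (imG_unique s (exists_imG H.lvl s ⟨Q, H.ov⟩).choose_spec fun x => ?_)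
      have h5 := H.iQ x x.2 (hst H.iE x x.2)
      have h6 : s.1 x = ⟨ι x, hst H.iE x x.2⟩ := Subtype.ext (hs x)
      rw [h6]
      exact h5
  refine ⟨h1, ?_⟩
  rw [h1, Nat.card_zpowers]
  have : Fact ℓ.Prime := ⟨hℓ⟩
  refine orderOf_eq_prime ?_ ?_
  · refine gam_ext fun z => ?_
    rw [gam_pow hs, H.pow_l z z.2]
    rfl
  · intro h2
    have h3 := hs ⟨r, H.r_mem⟩
    rw [h2] at h3
    have h4 : r = algebraMap E U ζ * r := by
      rw [← H.ir]
      exact h3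
    have h5 : algebraMap E U ζ = 1 := by
      have h6 : 1 * r = algebraMap E U ζ * r := by rw [one_mul]; exact h4
      exact (mul_right_cancel₀ H.r0 h6).symm
    have h7 : ζ = 1 := (algebraMap E U).injective (by rw [h5, map_one])
    exact H.prim.ne_one hℓ.one_lt h7

theorem InG.pretr (H : InG ℓ r N b Q ι ζ) :
    letI := actG H.lvl b
    IsPretransitive (Gam E K0 N) {Q : Place E N // OverPl b Q} := by
  letI := actG H.lvl b
  have hst : ∀ {T : U ≃+* U}, AuE E K0 T → ∀ x ∈ N, T x ∈ N := fun hT x hx =>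
    H.lvl.stab _ hT.fixK (AuE.au29 hT).presE x hx
  refine ⟨fun Q Q' => ?_⟩
  obtain ⟨a, ha, -, hm⟩ := H.tr Q.1 Q'.1 Q.2 Q'.2
  obtain ⟨γ, hγ⟩ := exists_gam H.lvl ha
  refine ⟨γ, Subtype.ext (imG_unique γ (exists_imG H.lvl γ Q).choose_spec fun x => ?_)⟩
  have h5 := hm x x.2 (hst ha x x.2)
  have h6 : γ.1 x = ⟨a x, hst ha x x.2⟩ := Subtype.ext (hγ x)
  rw [h6]
  exact h5

theorem InG.finG (H : InG ℓ r N b Q ι ζ) (hℓ : ℓ.Prime) :
    Finite (Gam E K0 N) ∧ Nat.card (Gam E K0 N) =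
      Nat.card {Q : Place E N // OverPl b Q} * ℓ := by
  letI := actG H.lvl b
  have : IsPretransitive (Gam E K0 N) {Q : Place E N // OverPl b Q} := H.pretr
  obtain ⟨s, hs⟩ := exists_gam H.lvl H.iE
  obtain ⟨-, h2⟩ := H.stab hℓ hs
  have hΩ : Finite {Q : Place E N // OverPl b Q} := H.fin
  have h3 : Finite (stabilizer (Gam E K0 N) (⟨Q, H.ov⟩ : {Q : Place E N // OverPl b Q})) :=
    Nat.finite_of_card_ne_zero (by rw [h2]; exact hℓ.ne_zero)
  have e1 : {Q : Place E N // OverPl b Q} ≃ Gam E K0 N ⧸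
      stabilizer (Gam E K0 N) (⟨Q, H.ov⟩ : {Q : Place E N // OverPl b Q}) :=
    (Equiv.Set.univ _).symm.trans ((Equiv.setCongr (orbit_eq_univ (Gam E K0 N)
      (⟨Q, H.ov⟩ : {Q : Place E N // OverPl b Q})).symm).trans
      (orbitEquivQuotientStabilizer (Gam E K0 N) _))
  have e2 := Subgroup.groupEquivQuotientProdSubgroup
    (s := stabilizer (Gam E K0 N) (⟨Q, H.ov⟩ : {Q : Place E N // OverPl b Q}))
  have h4 : Finite (Gam E K0 N ⧸
      stabilizer (Gam E K0 N) (⟨Q, H.ov⟩ : {Q : Place E N // OverPl b Q})) :=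
    Finite.of_equiv _ e1
  refine ⟨Finite.of_equiv _ e2.symm, ?_⟩
  rw [Nat.card_congr e2, Nat.card_prod, h2, Nat.card_congr e1]

/-- the fixed places -/
theorem InG.fixEquiv (H : InG ℓ r N b Q ι ζ) (hℓ : ℓ.Prime) :
    letI := actG H.lvl b
    Nat.card {ω : {Q : Place E N // OverPl b Q} // ∀ g ∈ stabilizer (Gam E K0 N)
      (⟨Q, H.ov⟩ : {Q : Place E N // OverPl b Q}), g • ω = ω} =
    Nat.card {Q' : Place E N // OverPl b Q' ∧ Moves ι N Q' Q'} := by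
  letI := actG H.lvl b
  obtain ⟨s, hs⟩ := exists_gam H.lvl H.iE
  obtain ⟨h1, -⟩ := H.stab hℓ hs
  have hst : ∀ {T : U ≃+* U}, AuE E K0 T → ∀ x ∈ N, T x ∈ N := fun hT x hx =>
    H.lvl.stab _ hT.fixK (AuE.au29 hT).presE x hx
  have hfix : ∀ ω : {Q : Place E N // OverPl b Q}, (∀ g ∈ stabilizer (Gam E K0 N)
      (⟨Q, H.ov⟩ : {Q : Place E N // OverPl b Q}), g • ω = ω) ↔ Moves ι N ω.1 ω.1 := by
    intro ω
    constructor
    · intro hω
      have h2 : s • ω = ω := hω s (by rw [h1]; exact Subgroup.mem_zpowers s)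
      have h3 : (exists_imG H.lvl s ω).choose = ω := h2
      have h4 := (exists_imG H.lvl s ω).choose_spec
      rw [h3] at h4
      intro x hx hx'
      have h5 := h4 ⟨x, hx⟩
      have h6 : s.1 ⟨x, hx⟩ = ⟨ι x, hx'⟩ := Subtype.ext (hs ⟨x, hx⟩)
      rw [h6] at h5
      exact h5
    · intro hω g hg
      rw [h1] at hg
      have h2 : s ∈ stabilizer (Gam E K0 N) ω := by
        rw [mem_stabilizer_iff]
        refine Subtype.ext (imG_unique s (exists_imG H.lvl s ω).choose_spec fun x => ?_)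
        have h5 := hω x x.2 (hst H.iE x x.2)
        have h6 : s.1 x = ⟨ι x, hst H.iE x x.2⟩ := Subtype.ext (hs x)
        rw [h6]
        exact h5
      have h3 : Subgroup.zpowers s ≤ stabilizer (Gam E K0 N) ω := Subgroup.zpowers_le.2 h2
      exact mem_stabilizer_iff.1 (h3 hg)
  refine Nat.card_congr ⟨fun ω => ⟨ω.1.1, ω.1.2, (hfix ω.1).1 ω.2⟩,
    fun Q' => ⟨⟨Q'.1, Q'.2.1⟩, (hfix ⟨Q'.1, Q'.2.1⟩).2 Q'.2.2⟩, fun ω => rfl, fun Q' => rfl⟩

/-- `ℓ` divides the number of the places above `b` which are fixed by `ι` -/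
theorem InG.fix_dvd (H : InG ℓ r N b Q ι ζ) (hℓ : ℓ.Prime)
    (hpl : ∀ a : U ≃+* U, AuE E K0 a → ∃ j : ℕ, ∀ z ∈ N, (a ^ (ℓ ^ j)) z = z)
    (h2 : 2 ≤ Nat.card {Q : Place E N // OverPl b Q}) :
    ℓ ∣ Nat.card {Q' : Place E N // OverPl b Q' ∧ Moves ι N Q' Q'} := by
  letI := actG H.lvl b
  have : Fact ℓ.Prime := ⟨hℓ⟩
  have : IsPretransitive (Gam E K0 N) {Q : Place E N // OverPl b Q} := H.pretr
  obtain ⟨s, hs⟩ := exists_gam H.lvl H.iE
  obtain ⟨-, hc⟩ := H.stab hℓ hs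
  obtain ⟨hf, hcard⟩ := H.finG hℓ
  rw [← H.fixEquiv hℓ]
  refine Pool.Agent.PL13.card_fix_dvd (ℓ := ℓ) ?_ _ hc ?_
  · intro γ
    obtain ⟨a, ha, hγ⟩ := γ.2
    obtain ⟨j, hj⟩ := hpl a ha
    refine ⟨j, gam_ext fun z => ?_⟩
    rw [gam_pow hγ, hj z z.2]
    rfl
  · rw [hcard]
    intro h3
    have h4 := hℓ.pos
    nlinarith

/-- the number of the fixed places is at least the number of the places of an abelian level -/
theorem InG.fix_count (H : InG ℓ r N b Q ι ζ) (hℓ : ℓ.Prime) {B : IntermediateField E U}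
    (hBN : B ≤ N) {QB : Place E B} {ιB : U ≃+* U} {ζB : E} (HB : InG ℓ r B b QB ιB ζB)
    (hab : ∀ a a' : U ≃+* U, AuE E K0 a → AuE E K0 a' → ∀ z ∈ B, a (a' z) = a' (a z)) :
    Nat.card {Q : Place E B // OverPl b Q} ≤
      Nat.card {Q' : Place E N // OverPl b Q' ∧ Moves ι N Q' Q'} := by
  letI := actG H.lvl b
  have : IsPretransitive (Gam E K0 N) {Q : Place E N // OverPl b Q} := H.pretr
  obtain ⟨s, hs⟩ := exists_gam H.lvl H.iE
  obtain ⟨h1, hc⟩ := H.stab hℓ hs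
  obtain ⟨hf, hcard⟩ := H.finG hℓ
  obtain ⟨hfB, hcardB⟩ := HB.finG hℓ
  have hΩ : Finite {Q : Place E N // OverPl b Q} := H.fin
  -- the restriction to `B`
  have hres : ∀ γ : Gam E K0 N, ∃ β : Gam E K0 B, ∀ z (hz : z ∈ B),
      ((β.1 ⟨z, hz⟩ : B) : U) = γ.1 ⟨z, hBN hz⟩ := by
    intro γ
    obtain ⟨a, ha, hγ⟩ := γ.2
    obtain ⟨β, hβ⟩ := exists_gam HB.lvl ha
    exact ⟨β, fun z hz => by rw [hβ, hγ]⟩
  choose ρ hρ using hres
  have hval : ∀ (γ : Gam E K0 N) (x : N) (hx : (x : U) ∈ B),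
      γ.1 x = ⟨((ρ γ).1 ⟨x, hx⟩ : B), hBN ((ρ γ).1 ⟨x, hx⟩).2⟩ := fun γ x hx =>
    Subtype.ext (hρ γ x hx).symm
  let R : Gam E K0 N →* Gam E K0 B :=
    { toFun := ρ
      map_one' := gam_ext fun z => by rw [hρ 1 z z.2]; rfl
      map_mul' := fun γ γ' => gam_ext fun z => by
        rw [hρ (γ * γ') z z.2]
        show ((γ.1 (γ'.1 ⟨z, _⟩) : N) : U) = (((ρ γ).1 ((ρ γ').1 z) : B) : U)
        rw [hval γ' ⟨z, hBN z.2⟩ z.2, hρ γ _ ((ρ γ').1 z).2] }
  have hRs : Function.Surjective R := by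
    intro β
    obtain ⟨a, ha, hβ⟩ := β.2
    obtain ⟨γ, hγ⟩ := exists_gam H.lvl ha
    refine ⟨γ, gam_ext fun z => ?_⟩
    show (((ρ γ).1 z : B) : U) = _
    rw [hρ γ z z.2, hγ, hβ]
  have hBc : ∀ β β' : Gam E K0 B, β * β' = β' * β := by
    intro β β'
    obtain ⟨a, ha, hβ⟩ := β.2
    obtain ⟨a', ha', hβ'⟩ := β'.2
    refine gam_ext fun z => ?_
    show ((β.1 (β'.1 z) : B) : U) = ((β'.1 (β.1 z) : B) : U)
    rw [hβ, hβ', hβ', hβ, hab a a' ha ha' z z.2]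
  have hK : ∀ γ γ' : Gam E K0 N, γ * γ' * γ⁻¹ * γ'⁻¹ ∈ R.ker := by
    intro γ γ'
    rw [MonoidHom.mem_ker, map_mul, map_mul, map_mul, map_inv, map_inv, hBc (R γ) (R γ')]
    group
  have hidx : R.ker.index = Nat.card (Gam E K0 B) := by
    rw [Subgroup.index_ker, MonoidHom.range_eq_top.2 hRs, Nat.card_congr Subgroup.topEquiv.toEquiv]
  have h3 := Pool.Agent.PL13.index_le_fix (⟨Q, H.ov⟩ : {Q : Place E N // OverPl b Q}) s
    (fun g hg => by rw [h1] at hg; exact hg) R.ker hK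
  rw [hidx, hcardB, hc, H.fixEquiv hℓ, mul_comm] at h3
  exact Nat.le_of_mul_le_mul_left h3 hℓ.pos

end fix

end Pool.Agent.PRL
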