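import Pool.Agent.Helper13.PLF.Defs
import Pool.Agent.Helper29.PL.FixG

/-!
# Project PL, block FIX: the places above `b₀` fixed by the inertia group
-/

set_option autoImplicit false
set_option linter.unusedSectionVars false

namespace Pool.Agent.PRL

open VC IntermediateField NumberField IsDedekindDomain Pool.Agent.SC
open Pool.Agent.L (L0 MM)
open Pool.Agent.LN (Geo Act)
open Pool.Agent.M (Moves OverPl inL0 moves_unique)
open Pool.Agent.ML (HasMu BPl)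
open Pool.Agent.TOW (Au AuE)

/-- the number of the places above `b` is at least the number of the given automorphisms -/
theorem InG.card_le {K0 E U : Type} [Field K0] [Field E] [Field U] [Algebra E U] [Algebra K0 U]
    {ℓ : ℕ} {r : U} {N : IntermediateField E U} {b : Place E (L0 E K0 (U := U))} {Q : Place E N}
    {ι : U ≃+* U} {ζ : E} (H : InG ℓ r N b Q ι ζ) (A : Finset (U ≃+* U))
    (hA : ∀ a ∈ A, AuE E K0 a ∧ a r = r)
    (hd : ∀ a ∈ A, ∀ a' ∈ A, a ≠ a' → ∃ z ∈ N, a z ≠ a' z) :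
    A.card ≤ Nat.card {Q : Place E N // OverPl b Q} := by
  classical
  have hst : ∀ {T : U ≃+* U}, AuE E K0 T → ∀ x ∈ N, T x ∈ N := fun hT x hx =>
    H.lvl.stab _ hT.fixK (AuE.au29 hT).presE x hx
  have hΩ : Finite {Q : Place E N // OverPl b Q} := H.fin
  have h1 : ∀ a : A, ∃ Q' : {Q : Place E N // OverPl b Q}, Moves (a : U ≃+* U) N Q Q'.1 := by
    rintro ⟨a, ha⟩
    obtain ⟨γ, hγ⟩ := exists_gam H.lvl (hA a ha).1
    obtain ⟨Q', hQ'⟩ := exists_imG H.lvl γ ⟨Q, H.ov⟩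
    refine ⟨Q', fun x hx hx' => ?_⟩
    have h5 := hQ' ⟨x, hx⟩
    have h6 : γ.1 ⟨x, hx⟩ = ⟨a x, hx'⟩ := Subtype.ext (hγ ⟨x, hx⟩)
    rw [h6] at h5
    exact h5
  choose F hF using h1
  have h2 : Function.Injective F := by
    intro a a' h
    by_contra hne
    have hne' : (a : U ≃+* U) ≠ a' := fun h3 => hne (Subtype.ext h3)
    obtain ⟨z, hz, hzz⟩ := hd a a.2 a' a'.2 hne'
    have ha := hA a a.2
    have ha' := hA a' a'.2
    have h3 : Moves ((a' : U ≃+* U)⁻¹ * (a : U ≃+* U)) N Q Q := by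
      refine Pool.Agent.M.moves_comp (hst ha.1) (hF a) ?_
      rw [h]
      exact Pool.Agent.TOW.moves_inv (hst ha'.1.inv) (hF a')
    have h4 : ((a' : U ≃+* U)⁻¹ * (a : U ≃+* U)) r = r := by
      show ((a' : U ≃+* U)⁻¹) ((a : U ≃+* U) r) = r
      rw [ha.2]
      exact Pool.Agent.TOW.inv_fix ha'.2
    have h5 := H.free _ Q (ha'.1.inv.mul ha.1) h4 h3 z hz
    apply hzz
    have h6 : (a' : U ≃+* U).symm ((a : U ≃+* U) z) = z := h5
    rw [RingEquiv.symm_apply_eq] at h6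
    exact h6
  have h3 := Nat.card_le_card_of_injective F h2
  rwa [Nat.card_eq_fintype_card, Fintype.card_coe] at h3

theorem fIX (hPX : StmtPXL) : StmtFIX := by
  intro k K0 E U _ _ _ _ _ _ _ _ _ _ _ _ ℓ h r hℓ hμ hG N₁ N hN₁ hMN₁ hab hF hN hNN hpl b₀ Q hb hQ
    ι hι hιQ
  obtain ⟨A, hA4, hA, hd⟩ := hF
  obtain ⟨ζ, hζ, hιr⟩ := hι.mul
  have hr0 : r ≠ 0 := by
    intro h0
    refine hG.rnot 1 one_pos hℓ.one_lt ?_
    rw [h0, pow_one]
    exact zero_mem _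
  -- the two levels
  have hlev : ∀ B : IntermediateField E U, TW.Lvl E K0 B → MM E K0 r ≤ B → ∀ (QB : Place E B)
      (ιB : U ≃+* U) (ζB : E), OverPl b₀ QB → AuE E K0 ιB → IsPrimitiveRoot ζB ℓ →
      ιB r = algebraMap E U ζB * r → Moves ιB B QB QB → InG ℓ r B b₀ QB ιB ζB := by
    intro B hB hMB QB ιB ζB h1 h2 h3 h4 h5
    obtain ⟨hfree, hpb⟩ := hPX k K0 E U ℓ h r hℓ hG B hB hMB
    obtain ⟨-, hfin, htr, -⟩ := hpb b₀ hb
    exact ⟨hB, hMB, hr0, ⟨h, hG.rpow⟩, hfree, hfin, htr, h1, h2, h3, h4, h5⟩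
  have H := hlev N hN (hMN₁.trans hNN) Q ι ζ hQ hι.auE hζ hιr hιQ
  obtain ⟨-, hpb⟩ := hPX k K0 E U ℓ h r hℓ hG N₁ hN₁ hMN₁
  obtain ⟨⟨QB, hQB⟩, -, -, hin⟩ := hpb b₀ hb
  obtain ⟨ιB, ζB, h1, h2, h3, h4⟩ := hin QB hQB
  have HB := hlev N₁ hN₁ hMN₁ QB ιB ζB hQB h1 h2 h3 h4
  have hc1 := HB.card_le A hA hd
  have hc2 := H.card_le A hA fun a ha a' ha' hne => by
    obtain ⟨z, hz, hzz⟩ := hd a ha a' ha' hne
    exact ⟨z, hNN hz, hzz⟩
  exact ⟨H.fix_dvd hℓ hpl (by omega), (hA4.trans hc1).trans (H.fix_count hℓ hNN HB hab.comm)⟩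

end Pool.Agent.PRL
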