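import Pool.Agent.Helper97.TW.Defs
import Pool.Agent.Helper45.TW.SAa
import Pool.Agent.Helper13.PL.Grp

/-!
# Project PL: the group of a level over `L0`, its action on the places above `b`
-/

set_option autoImplicit false
set_option linter.unusedSectionVars false

namespace Pool.Agent.PRL

open VC IntermediateField MulAction Pool.Agent.SC
open Pool.Agent.L (L0 MM)
open Pool.Agent.M (Moves OverPl restr moves_comp moves_unique moves_one moves_congr moves_pow)
open Pool.Agent.TOW (Au AuE exists_im moves_inv inv_fix)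

section gam

variable {K0 E U : Type} [Field K0] [Field E] [Field U] [Algebra E U] [Algebra K0 U]

theorem AuE.au29 {a : U ≃+* U} (ha : AuE E K0 a) : Au E K0 a :=
  ⟨ha.fixK, fun e => ⟨e, ha.fixE e⟩⟩

theorem AuE.pow29 {a : U ≃+* U} (ha : AuE E K0 a) (n : ℕ) : AuE E K0 (a ^ n) := by
  induction n with
  | zero => rw [pow_zero]; exact AuE.one
  | succ n ih => rw [pow_succ]; exact ih.mul ha

/-- the group of `N` over `L0` -/
def Gam (E K0 : Type) {U : Type} [Field K0] [Field E] [Field U] [Algebra E U] [Algebra K0 U]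
    (N : IntermediateField E U) : Subgroup (N ≃+* N) where
  carrier := {γ | ∃ a : U ≃+* U, AuE E K0 a ∧ ∀ z : N, ((γ z : N) : U) = a z}
  mul_mem' := by
    rintro γ γ' ⟨a, ha, h⟩ ⟨a', ha', h'⟩
    refine ⟨a * a', ha.mul ha', fun z => ?_⟩
    show ((γ (γ' z) : N) : U) = a (a' z)
    rw [h, h']
  one_mem' := ⟨1, AuE.one, fun _ => rfl⟩
  inv_mem' := by
    rintro γ ⟨a, ha, h⟩
    refine ⟨a⁻¹, ha.inv, fun z => ?_⟩
    show ((γ.symm z : N) : U) = a.symm z
    rw [RingEquiv.eq_symm_apply, ← h, RingEquiv.apply_symm_apply]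

variable {N : IntermediateField E U}

theorem exists_gam (hN : TW.Lvl E K0 N) {a : U ≃+* U} (ha : AuE E K0 a) :
    ∃ γ : Gam E K0 N, ∀ z : N, ((γ.1 z : N) : U) = a z := by
  have h1 : ∀ x ∈ N, a x ∈ N := fun x hx => hN.stab _ ha.fixK (AuE.au29 ha).presE x hx
  have h2 : ∀ x ∈ N, a.symm x ∈ N := fun x hx =>
    hN.stab _ ha.inv.fixK (AuE.au29 ha.inv).presE x hx
  exact ⟨⟨restr N a h1 h2, a, ha, fun _ => rfl⟩, fun _ => rfl⟩

theorem gam_ext {γ γ' : Gam E K0 N} (h : ∀ z : N, ((γ.1 z : N) : U) = γ'.1 z) : γ = γ' :=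
  Subtype.ext (RingEquiv.ext fun z => Subtype.ext (h z))

theorem gam_pow {γ : Gam E K0 N} {a : U ≃+* U} (h : ∀ z : N, ((γ.1 z : N) : U) = a z) (n : ℕ) :
    ∀ z : N, (((γ ^ n).1 z : N) : U) = (a ^ n) z := by
  induction n with
  | zero => intro z; rw [pow_zero, pow_zero]; rfl
  | succ n ih =>
    intro z
    rw [pow_succ, pow_succ]
    show (((γ ^ n).1 (γ.1 z) : N) : U) = (a ^ n) (a z)
    rw [ih, h]

variable {b : Place E (L0 E K0 (U := U))}

/-- the image of a place -/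
theorem exists_imG (hN : TW.Lvl E K0 N) (γ : Gam E K0 N) (Q : {Q : Place E N // OverPl b Q}) :
    ∃ Q' : {Q : Place E N // OverPl b Q}, ∀ x : N, x ∈ Q.1.ring ↔ γ.1 x ∈ Q'.1.ring := by
  obtain ⟨γ, a, ha, hγ⟩ := γ
  obtain ⟨Q, hQ⟩ := Q
  have hst : ∀ {T : U ≃+* U}, Au E K0 T → ∀ x ∈ N, T x ∈ N := fun hT x hx =>
    hN.stab _ hT.fixK hT.presE x hx
  obtain ⟨Q', hQ'⟩ := exists_im (hst (AuE.au29 ha)) (hst (AuE.au29 ha.inv))
    (AuE.au29 ha.inv).presE Q
  refine ⟨⟨Q', fun x hx hx' => ?_⟩, fun x => ?_⟩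
  · have h1 := hQ' x hx' (hst (AuE.au29 ha) x hx')
    have h2 : (⟨a x, hst (AuE.au29 ha) x hx'⟩ : N) = ⟨x, hx'⟩ := Subtype.ext (ha.onL0 x hx)
    rw [h2] at h1
    rw [hQ x hx hx', h1]
  · have h1 := hQ' x x.2 (hst (AuE.au29 ha) x x.2)
    have h2 : (⟨a x, hst (AuE.au29 ha) x x.2⟩ : N) = γ x := Subtype.ext (hγ x).symm
    rw [h2] at h1
    exact h1

theorem imG_unique (γ : Gam E K0 N) {Q Q' Q'' : Place E N}
    (h : ∀ x : N, x ∈ Q.ring ↔ γ.1 x ∈ Q'.ring) (h' : ∀ x : N, x ∈ Q.ring ↔ γ.1 x ∈ Q''.ring) :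
    Q' = Q'' := by
  refine Pool.Agent.M.place_ext fun x => ?_
  have h1 := h (γ.1.symm x)
  have h2 := h' (γ.1.symm x)
  rw [RingEquiv.apply_symm_apply] at h1 h2
  rw [← h1, h2]

/-- the action -/
@[reducible]
noncomputable def actG (hN : TW.Lvl E K0 N) (b : Place E (L0 E K0 (U := U))) :
    MulAction (Gam E K0 N) {Q : Place E N // OverPl b Q} where
  smul γ Q := (exists_imG hN γ Q).choose
  one_smul Q := Subtype.ext (imG_unique 1 (exists_imG hN 1 Q).choose_spec fun _ => Iff.rfl)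
  mul_smul γ γ' Q := Subtype.ext (imG_unique (γ * γ') (exists_imG hN (γ * γ') Q).choose_spec
    fun x => by
      rw [(exists_imG hN γ' Q).choose_spec x, (exists_imG hN γ _).choose_spec (γ'.1 x)]
      rfl)

end gam

end Pool.Agent.PRL
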